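import Pool.Agent.Helper32.B4.St

/-!
# B4, module RL: a univalent function for a step function
-/

set_option autoImplicit false

open Metric Set Filter Topology MeasureTheory
open scoped ComplexConjugate Interval

namespace Pool.Agent.Helper72.B4

open Pool.Agent.Helper32.B4 Pool.Agent.Helper32.DX Pool.Agent.Helper64.C3

theorem hRL : StEV → StML → StKO → StRL := by
  intro hEV hML hKO a t m ha0 ha
  obtain ⟨H, hS, hI, hd, e1, e2, e3⟩ := hML a t m ha0 ha
  have hle : ∀ i < m, a (i + 1) ≤ a i := fun i hi => (ha i hi).2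
  have hk : ∀ k, k ≤ m → 0 < a k ∧ a k ≤ 1 := by
    intro k
    induction k with
    | zero => intro _; rw [ha0]; exact ⟨one_pos, le_rfl⟩
    | succ k ih =>
      intro hk
      have h1 := ih (by omega)
      have h2 := ha k (by omega)
      exact ⟨h2.1, h2.2.trans h1.2⟩
  obtain ⟨hp, h1⟩ := hk m le_rfl
  obtain ⟨k1, k2, k3, k4⟩ := hKO (a m) H hp hS hI hd
  obtain ⟨v1, v2, v3⟩ := hEV (stepf a t m) (stepf_meas a t m) 0 (a m) 0 le_rfl hp.le h1
    (fun u hu => stepf_of_le hle hu.2)
  simp only [Complex.ofReal_zero, zero_mul, Complex.exp_zero, mul_one, sub_zero, one_pow, one_mul,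
    ne_eq, OfNat.ofNat_ne_zero, not_false_eq_true, zero_pow, zero_sub] at v1 v2 v3
  refine ⟨fun z => koebe (H z) / a m, k1, ?_, ?_⟩
  · rw [k2, e1, A2, v1]
  · have h4 : coeff 4 (fun z => koebe (H z) / (a m : ℂ)) =
        coeff 2 (fun z => koebe (H z) / (a m : ℂ)) ^ 3 -
          2 * coeff 2 (fun z => koebe (H z) / (a m : ℂ)) * B1 (fun z => koebe (H z) / (a m : ℂ)) -
          B2 (fun z => koebe (H z) / (a m : ℂ)) := by
      simp only [B1, B2]
      ring
    rw [h4, k2, k3, k4, e1, e2, e3, A4, v3, v2, v1]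
    ring

end Pool.Agent.Helper72.B4
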